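import Pool.Agent.Lib_helper68.MC.Defs
import Pool.Agent.Lib_helper89.MC.EN

/-! Project MC, block GE: dilations, translations, rotations, conjugation. -/

set_option autoImplicit false

namespace Pool.Agent.Lib_helper68.MC

open MeasureTheory Filter Topology Set
open scoped ComplexConjugate ENNReal NNReal

noncomputable section

/-- a change of variables with Jacobian `κ` -/
structure GE_CV (T : ℂ ≃ᵐ ℂ) (κ : ℝ) : Prop where
  pos : 0 < κ
  mp : MeasurePreserving T (ENNReal.ofReal κ • (volume : Measure ℂ)) volume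

variable {T : ℂ ≃ᵐ ℂ} {κ : ℝ}

theorem GE_integral {E : Type*} [NormedAddCommGroup E] [NormedSpace ℝ E] (c : GE_CV T κ)
    (f : ℂ → E) : ∫ x, κ • f (T x) = ∫ y, f y := by
  have h := c.mp.integral_comp' f
  rw [integral_smul_measure, ENNReal.toReal_ofReal c.pos.le] at h
  rw [integral_smul, h]

theorem GE_integrable {E : Type*} [NormedAddCommGroup E] [NormedSpace ℝ E] (c : GE_CV T κ)
    {f : ℂ → E} (hf : Integrable f) : Integrable (fun x => κ • f (T x)) := by
  have h := (c.mp.integrable_comp_emb T.measurableEmbedding (g := f)).2 hf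
  rw [integrable_smul_measure (by simpa using c.pos) ENNReal.ofReal_ne_top] at h
  exact h.smul κ

theorem GE_prod (c : GE_CV T κ) : MeasurePreserving (Prod.map T T)
    (ENNReal.ofReal (κ * κ) • (volume : Measure (ℂ × ℂ))) volume := by
  have h := c.mp.prod c.mp
  have e : (ENNReal.ofReal κ • (volume : Measure ℂ)).prod (ENNReal.ofReal κ • volume) =
      ENNReal.ofReal (κ * κ) • (volume : Measure (ℂ × ℂ)) := by
    rw [Measure.prod_smul_left, Measure.prod_smul_right, smul_smul, ENNReal.ofReal_mul c.pos.le]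
    rfl
  rw [e] at h
  exact h

theorem GE_integral2 (c : GE_CV T κ) (f : ℂ × ℂ → ℝ) :
    ∫ p : ℂ × ℂ, (κ * κ) * f (T p.1, T p.2) = ∫ p, f p := by
  have h := (GE_prod c).integral_comp (T.measurableEmbedding.prodMap T.measurableEmbedding) f
  rw [integral_smul_measure, ENNReal.toReal_ofReal (mul_pos c.pos c.pos).le] at h
  rw [integral_const_mul]
  exact h


theorem GE_log (c : GE_CV T κ) (r : ℝ) :
    κ * r * Real.log (κ * r) = κ • (r * Real.log r + Real.log κ * r) := by
  by_cases h : r = 0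
  · simp [h]
  · rw [Real.log_mul c.pos.ne' h, smul_eq_mul]
    ring

/-- the transported density -/
theorem GE_dens (c : GE_CV T κ) {ρ : ℂ → ℝ} (h : Dens ρ)
    (hm : Integrable fun y => ‖T.symm y‖ ^ 2 * ρ y) : Dens (fun x => κ * ρ (T x)) := by
  have e : ∀ x, ‖x‖ ^ 2 * (κ * ρ (T x)) = κ • (fun y => ‖T.symm y‖ ^ 2 * ρ y) (T x) := by
    intro x
    simp only [MeasurableEquiv.symm_apply_apply, smul_eq_mul]
    ring
  refine ⟨(h.meas.comp T.measurable).const_mul κ, fun x => mul_nonneg c.pos.le (h.nonneg _),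
    by simpa using GE_integrable c h.int, ?_, ?_, ?_⟩
  · simpa [h.one] using GE_integral c ρ
  · have := GE_integrable c (h.ent.add (h.int.const_mul (Real.log κ)))
    refine this.congr (Eventually.of_forall fun x => ?_)
    simp only [Pi.add_apply]
    exact (GE_log c _).symm
  · have := GE_integrable c hm
    refine this.congr (Eventually.of_forall fun x => (e x).symm)

theorem GE_sent (c : GE_CV T κ) {ρ : ℂ → ℝ} (h : Dens ρ) :
    Sent (fun x => κ * ρ (T x)) = Sent ρ - Real.log κ := by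
  unfold Sent
  have : ∀ x, κ * ρ (T x) * Real.log (κ * ρ (T x)) =
      κ • (fun y => ρ y * Real.log (ρ y) + Real.log κ * ρ y) (T x) := fun x => GE_log c _
  rw [integral_congr_ae (Eventually.of_forall this),
    GE_integral c (fun y => ρ y * Real.log (ρ y) + Real.log κ * ρ y),
    integral_add h.ent (h.int.const_mul _), integral_const_mul, h.one]
  ring

theorem GE_mo (c : GE_CV T κ) (ρ : ℂ → ℝ) :
    mo (fun x => κ * ρ (T x)) = ∫ y, ‖T.symm y‖ ^ 2 * ρ y := by
  unfold mo
  rw [← GE_integral c fun y => ‖T.symm y‖ ^ 2 * ρ y]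
  refine integral_congr_ae (Eventually.of_forall fun x => ?_)
  simp only [MeasurableEquiv.symm_apply_apply, smul_eq_mul]
  ring

theorem GE_mean (c : GE_CV T κ) (ρ : ℂ → ℝ) :
    mean (fun x => κ * ρ (T x)) = ∫ y, (ρ y : ℂ) * T.symm y := by
  unfold mean
  rw [← GE_integral c fun y => (ρ y : ℂ) * T.symm y]
  refine integral_congr_ae (Eventually.of_forall fun x => ?_)
  simp only [MeasurableEquiv.symm_apply_apply, Complex.real_smul, Complex.ofReal_mul]
  ring

theorem GE_En (c : GE_CV T κ) (ρ : ℂ → ℝ) :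
    En (fun x => κ * ρ (T x)) (fun x => κ * ρ (T x)) =
      -(1 / (4 * Real.pi)) * ∫ p : ℂ × ℂ, Real.log ‖T.symm p.1 - T.symm p.2‖ *
        (ρ p.1 * ρ p.2) := by
  unfold En
  rw [← GE_integral2 c fun p : ℂ × ℂ => Real.log ‖T.symm p.1 - T.symm p.2‖ * (ρ p.1 * ρ p.2)]
  congr 1
  refine integral_congr_ae (Eventually.of_forall fun x => ?_)
  simp only [MeasurableEquiv.symm_apply_apply]
  ring

theorem GE_diag : ∀ᵐ p : ℂ × ℂ, p.1 ≠ p.2 := by
  have h : MeasurableSet {p : ℂ × ℂ | p.1 ≠ p.2} :=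
    (measurableSet_eq_fun measurable_fst measurable_snd).compl
  rw [ae_iff]
  simp only [ne_eq, not_not]
  rw [Measure.volume_eq_prod, Measure.prod_apply (measurableSet_eq_fun measurable_fst measurable_snd)]
  refine (lintegral_congr fun x => ?_).trans lintegral_zero
  have : Prod.mk x ⁻¹' {p : ℂ × ℂ | p.1 = p.2} = {x} := by
    ext y
    simp [eq_comm]
  rw [this]
  simp


theorem GE_one {T : ℂ ≃ᵐ ℂ} (h : MeasurePreserving T (volume : Measure ℂ) volume) :
    GE_CV T 1 := ⟨one_pos, by simpa using h⟩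

theorem GE_cvdil {s : ℝ} (hs : 0 < s) (h0 : (s : ℂ)⁻¹ ≠ 0) :
    GE_CV (MeasurableEquiv.mulLeft₀ (s : ℂ)⁻¹ h0) (s ^ 2)⁻¹ := by
  refine ⟨by positivity, ?_, ?_⟩
  · exact (MeasurableEquiv.mulLeft₀ (s : ℂ)⁻¹ h0).measurable
  · have e : (⇑(MeasurableEquiv.mulLeft₀ (s : ℂ)⁻¹ h0) : ℂ → ℂ) = fun x => s⁻¹ • x := by
      funext x
      simp [Complex.real_smul]
    rw [e, Measure.map_smul, Measure.map_addHaar_smul _ (inv_pos.2 hs).ne', smul_smul,
      Complex.finrank_real_complex, abs_of_pos (by positivity), ← ENNReal.ofReal_mul (by positivity)]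
    have : (s ^ 2)⁻¹ * (s⁻¹ ^ 2)⁻¹ = 1 := by
      field_simp
    rw [this]
    simp

theorem GE_dil {ρ : ℂ → ℝ} (h : Dens ρ) {s : ℝ} (hs : 0 < s) :
    Dens (dil s ρ) ∧ Sent (dil s ρ) = Sent ρ + 2 * Real.log s ∧ mo (dil s ρ) = s ^ 2 * mo ρ ∧
      mean (dil s ρ) = s * mean ρ ∧
      En (dil s ρ) (dil s ρ) = En ρ ρ - 1 / (4 * Real.pi) * Real.log s := by
  have h0 : (s : ℂ)⁻¹ ≠ 0 := inv_ne_zero (by exact_mod_cast hs.ne')
  have c := GE_cvdil hs h0
  have e : dil s ρ = fun x => (s ^ 2)⁻¹ * ρ (MeasurableEquiv.mulLeft₀ (s : ℂ)⁻¹ h0 x) := rfl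
  have es : ∀ y, (MeasurableEquiv.mulLeft₀ (s : ℂ)⁻¹ h0).symm y = s * y := by
    intro y
    simp
  have en : ∀ y : ℂ, ‖(s : ℂ) * y‖ = s * ‖y‖ := by
    intro y
    rw [norm_mul, Complex.norm_real, Real.norm_of_nonneg hs.le]
  rw [e]
  refine ⟨GE_dens c h ?_, ?_, ?_, ?_, ?_⟩
  · simp only [es, en]
    refine (h.mom.const_mul (s ^ 2)).congr (Eventually.of_forall fun x => ?_)
    simp only
    ring
  · rw [GE_sent c h, Real.log_inv, Real.log_pow]
    push_cast
    ring
  · rw [GE_mo c, mo, ← integral_const_mul]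
    simp only [es, en]
    refine integral_congr_ae (Eventually.of_forall fun x => ?_)
    simp only
    ring
  · rw [GE_mean c, mean, ← integral_const_mul]
    simp only [es]
    refine integral_congr_ae (Eventually.of_forall fun x => ?_)
    simp only
    ring
  · rw [GE_En c, En]
    have e1 : ∫ p : ℂ × ℂ, Real.log ‖(MeasurableEquiv.mulLeft₀ (s : ℂ)⁻¹ h0).symm p.1 -
        (MeasurableEquiv.mulLeft₀ (s : ℂ)⁻¹ h0).symm p.2‖ * (ρ p.1 * ρ p.2) =
        ∫ p : ℂ × ℂ, (Real.log s * (ρ p.1 * ρ p.2) +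
          Real.log ‖p.1 - p.2‖ * (ρ p.1 * ρ p.2)) := by
      refine integral_congr_ae ?_
      filter_upwards [GE_diag] with p hp
      rw [es, es, ← mul_sub, en, Real.log_mul hs.ne' (norm_ne_zero_iff.2 (sub_ne_zero.2 hp))]
      ring
    have i1 : Integrable fun p : ℂ × ℂ => ρ p.1 * ρ p.2 := h.int.mul_prod h.int
    rw [e1, integral_add (i1.const_mul _) (EN_int h h), integral_const_mul,
      Measure.volume_eq_prod, integral_prod_mul, h.one]
    field_simp
    ring

theorem GE_cvshift (m : ℂ) : GE_CV (MeasurableEquiv.addRight m) 1 :=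
  GE_one (measurePreserving_add_right volume m)

theorem GE_shift {ρ : ℂ → ℝ} (h : Dens ρ) :
    Dens (fun x => ρ (x + mean ρ)) ∧ Sent (fun x => ρ (x + mean ρ)) = Sent ρ ∧
      mo (fun x => ρ (x + mean ρ)) = mo ρ - ‖mean ρ‖ ^ 2 ∧
      mean (fun x => ρ (x + mean ρ)) = 0 ∧
      En (fun x => ρ (x + mean ρ)) (fun x => ρ (x + mean ρ)) = En ρ ρ := by
  set m := mean ρ with hm
  have c := GE_cvshift m
  have e : (fun x => ρ (x + m)) = fun x => 1 * ρ (MeasurableEquiv.addRight m x) := by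
    funext x
    simp
  have es : ∀ y, (MeasurableEquiv.addRight m).symm y = y - m := by
    intro y
    rw [MeasurableEquiv.symm_addRight]
    simp [sub_eq_add_neg]
  have i0 : Integrable fun y => (ρ y : ℂ) * y := by
    refine (EN_first h).mono' ?_ (Eventually.of_forall fun x => ?_)
    · exact ((Complex.measurable_ofReal.comp h.meas).mul measurable_id).aestronglyMeasurable
    · rw [norm_mul, Complex.norm_real, Real.norm_of_nonneg (h.nonneg x), mul_comm]
  have i1 : Integrable fun y => 2 * ((ρ y : ℂ) * y * conj m).re := by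
    have := (i0.mul_const (conj m)).re
    exact this.const_mul 2
  have ex : ∀ y : ℂ, ‖y - m‖ ^ 2 * ρ y =
      ‖y‖ ^ 2 * ρ y - 2 * ((ρ y : ℂ) * y * conj m).re + ‖m‖ ^ 2 * ρ y := by
    intro y
    have : ‖y - m‖ ^ 2 = ‖y‖ ^ 2 - 2 * (y * conj m).re + ‖m‖ ^ 2 := by
      rw [← Complex.normSq_eq_norm_sq, ← Complex.normSq_eq_norm_sq, ← Complex.normSq_eq_norm_sq,
        Complex.normSq_sub]
      ring
    rw [this, mul_assoc (ρ y : ℂ), Complex.re_ofReal_mul]
    ring
  rw [e]
  refine ⟨GE_dens c h ?_, ?_, ?_, ?_, ?_⟩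
  · simp only [es]
    refine ((h.mom.sub i1).add (h.int.const_mul (‖m‖ ^ 2))).congr
      (Eventually.of_forall fun x => (ex x).symm)
  · rw [GE_sent c h, Real.log_one, sub_zero]
  · rw [GE_mo c]
    simp only [es]
    have i2 : Integrable fun y => ‖y‖ ^ 2 * ρ y - 2 * ((ρ y : ℂ) * y * conj m).re := h.mom.sub i1
    rw [integral_congr_ae (Eventually.of_forall ex), integral_add i2
      (h.int.const_mul _), integral_sub h.mom i1, integral_const_mul, integral_const_mul, h.one]
    have e2 : ∫ y, ((ρ y : ℂ) * y * conj m).re = ‖m‖ ^ 2 := by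
      have := integral_re (i0.mul_const (conj m))
      simp only [RCLike.re_eq_complex_re] at this
      rw [this, integral_mul_const]
      change (m * conj m).re = _
      rw [Complex.mul_conj, Complex.normSq_eq_norm_sq]
      norm_cast
    rw [e2, mo]
    ring
  · rw [GE_mean c]
    simp only [es, mul_sub]
    have i3 : Integrable fun y => (ρ y : ℂ) * m := h.int.ofReal.mul_const m
    rw [integral_sub i0 i3, integral_mul_const]
    have e3 : ∫ y, (ρ y : ℂ) = 1 := by
      have := integral_ofReal (𝕜 := ℂ) (f := ρ) (μ := (volume : Measure ℂ))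
      rw [h.one] at this
      simpa using this
    rw [e3, one_mul]
    exact sub_self m
  · rw [GE_En c, En]
    simp only [es, sub_sub_sub_cancel_right]

theorem GE_rot {ρ : ℂ → ℝ} (h : Dens ρ) (a : ℂ) (ha : ‖a‖ = 1) :
    Dens (fun x => ρ (a * x)) ∧ Sent (fun x => ρ (a * x)) = Sent ρ ∧
      mo (fun x => ρ (a * x)) = mo ρ ∧ mean (fun x => ρ (a * x)) = conj a * mean ρ ∧
      En (fun x => ρ (a * x)) (fun x => ρ (a * x)) = En ρ ρ := by
  have h0 : a ≠ 0 := by
    intro h
    simp [h] at ha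
  have c : GE_CV (MeasurableEquiv.mulLeft₀ a h0) 1 := by
    refine GE_one ⟨(MeasurableEquiv.mulLeft₀ a h0).measurable, ?_⟩
    obtain ⟨u, hu⟩ : ∃ u : Circle, (u : ℂ) = a := ⟨⟨a, mem_sphere_zero_iff_norm.2 ha⟩, rfl⟩
    have := (rotation u).measurePreserving
    have e : (⇑(rotation u) : ℂ → ℂ) = ⇑(MeasurableEquiv.mulLeft₀ a h0) := by
      funext x
      rw [rotation_apply, hu]
      rfl
    rw [← e]
    exact this.map_eq
  have e : (fun x => ρ (a * x)) = fun x => 1 * ρ (MeasurableEquiv.mulLeft₀ a h0 x) := by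
    funext x
    simp
  have es : ∀ y, (MeasurableEquiv.mulLeft₀ a h0).symm y = a⁻¹ * y := by
    intro y
    simp
  have en : ∀ y : ℂ, ‖a⁻¹ * y‖ = ‖y‖ := by
    intro y
    rw [norm_mul, norm_inv, ha, inv_one, one_mul]
  rw [e]
  refine ⟨GE_dens c h ?_, ?_, ?_, ?_, ?_⟩
  · simpa only [es, en] using h.mom
  · rw [GE_sent c h, Real.log_one, sub_zero]
  · rw [GE_mo c]
    simp only [es, en]
    rfl
  · rw [GE_mean c, mean, ← integral_const_mul, ← Complex.inv_eq_conj ha]
    simp only [es]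
    refine integral_congr_ae (Eventually.of_forall fun x => ?_)
    simp only
    ring
  · rw [GE_En c, En]
    simp only [es, ← mul_sub, en]

theorem GE_conj {ρ : ℂ → ℝ} (h : Dens ρ) :
    Dens (fun x => ρ (conj x)) ∧ Sent (fun x => ρ (conj x)) = Sent ρ ∧
      mo (fun x => ρ (conj x)) = mo ρ ∧ mean (fun x => ρ (conj x)) = conj (mean ρ) ∧
      En (fun x => ρ (conj x)) (fun x => ρ (conj x)) = En ρ ρ := by
  have c : GE_CV Complex.conjLIE.toHomeomorph.toMeasurableEquiv 1 :=
    GE_one Complex.conjLIE.measurePreserving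
  have e : (fun x => ρ (conj x)) =
      fun x => 1 * ρ (Complex.conjLIE.toHomeomorph.toMeasurableEquiv x) := by
    funext x
    simp
  have es : ∀ y, Complex.conjLIE.toHomeomorph.toMeasurableEquiv.symm y = conj y := by
    intro y
    rfl
  rw [e]
  refine ⟨GE_dens c h ?_, ?_, ?_, ?_, ?_⟩
  · simpa only [es, Complex.norm_conj] using h.mom
  · rw [GE_sent c h, Real.log_one, sub_zero]
  · rw [GE_mo c]
    simp only [es, Complex.norm_conj]
    rfl
  · rw [GE_mean c, mean, ← integral_conj]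
    simp only [es]
    refine integral_congr_ae (Eventually.of_forall fun x => ?_)
    simp
  · rw [GE_En c, En]
    simp only [es, ← map_sub, Complex.norm_conj]

end

end Pool.Agent.Lib_helper68.MC
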